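import Pool.Agent.Y1.KN.Stm2
import Pool.Agent.Y655.KN.Trace

/-!
# Project KN (helper1), task AVG: the trace formula for averaged projections
-/

set_option autoImplicit false
set_option linter.unusedSectionVars false
set_option linter.unusedVariables false

namespace Pool.Agent.Y275.KN

open Finset Module Pool.Agent.TH170.MF Pool.Agent.TH170.QC Pool.Agent.TH170.QE Pool.Agent.TH170.FW
  Pool.Agent.Y1.KN

section

variable {G X : Type} [Group G] [Fintype G] [MulAction G X] [Fintype X]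

/-- the translation of the functions in an invariant space -/
def trS {S : Submodule ℚ (X → ℚ)} (hS : Invariant G S) (γ : G) : Module.End ℚ S :=
  (tr γ).restrict fun _ hs => tr_mem hS γ hs

theorem trS_apply {S : Submodule ℚ (X → ℚ)} (hS : Invariant G S) (γ : G) (s : S) :
    ((trS hS γ s : S) : X → ℚ) = tr γ (s : X → ℚ) := rfl

/-- the equivariant endomorphisms -/
def DD {S : Submodule ℚ (X → ℚ)} (hS : Invariant G S) : Subalgebra ℚ (Module.End ℚ S) :=
  Subalgebra.centralizer ℚ (Set.range (trS hS))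

theorem mem_DD {S : Submodule ℚ (X → ℚ)} (hS : Invariant G S) (δ : Module.End ℚ S) :
    δ ∈ DD hS ↔ ∀ (γ : G) (s : S), δ (trS hS γ s) = trS hS γ (δ s) := by
  unfold DD
  rw [Subalgebra.mem_centralizer_iff]
  constructor
  · intro h γ s
    exact (LinearMap.congr_fun (h _ ⟨γ, rfl⟩) s).symm
  · rintro h _ ⟨γ, rfl⟩
    exact LinearMap.ext fun s => (h γ s).symm

theorem DD_inj {c : X → X} {S : Submodule ℚ (X → ℚ)} (h : S ∈ MinInv G c) (δ : Module.End ℚ S)
    (hδ : δ ∈ DD h.2.1) (h0 : δ ≠ 0) : Function.Injective δ := by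
  rw [mem_DD] at hδ
  rw [← LinearMap.ker_eq_bot]
  rcases h.2.2.2 ((LinearMap.ker δ).map S.subtype) (by
    rintro γ _ ⟨s, hs, rfl⟩
    refine ⟨trS h.2.1 γ s, ?_, rfl⟩
    rw [SetLike.mem_coe, LinearMap.mem_ker] at hs ⊢
    rw [hδ, hs, map_zero]) (Submodule.map_subtype_le _ _) with h1 | h1
  · exact Submodule.map_injective_of_injective (Submodule.injective_subtype S)
      (by rw [h1, Submodule.map_bot])
  · exfalso
    apply h0
    apply LinearMap.ext
    intro s
    have h2 : (s : X → ℚ) ∈ (LinearMap.ker δ).map S.subtype := by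
      rw [h1]
      exact s.2
    obtain ⟨s', hs', hss⟩ := h2
    have h3 : s' = s := Subtype.ext hss
    rw [← h3]
    exact hs'

theorem avg_apply (K : Submodule ℚ (X → ℚ)) (u : X → ℚ) :
    avg G K u = ∑ γ : G, tr γ (proj K (tr γ⁻¹ u)) := by
  unfold avg
  rw [LinearMap.sum_apply]
  rfl

theorem avg_mem {S K : Submodule ℚ (X → ℚ)} (hS : Invariant G S) (hK : K ≤ S) (u : X → ℚ) :
    avg G K u ∈ S := by
  rw [avg_apply]
  exact Submodule.sum_mem _ fun γ _ => tr_mem hS γ (hK (proj_mem K _))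

theorem avg_tr (K : Submodule ℚ (X → ℚ)) (δ : G) (u : X → ℚ) :
    avg G K (tr δ u) = tr δ (avg G K u) := by
  rw [avg_apply, avg_apply, map_sum]
  refine (Fintype.sum_equiv (Equiv.mulRight δ) _ _ fun γ => ?_).symm
  rw [Equiv.coe_mulRight, tr_tr, tr_tr, mul_inv_rev, mul_inv_cancel_left]

end

/-- Task AVG. -/
theorem avg_trace : Pool.Agent.Y1.KN.P_avg := by
  intro G X _ _ _ _ c S K₁ K₂ hS hK₁ hD hK₂
  have hinv : Invariant G S := hS.2.1
  let T : (X → ℚ) →ₗ[ℚ] (X → ℚ) := avg G K₂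
  have hTm : ∀ u, T u ∈ S := avg_mem hinv hK₂
  let TS : Module.End ℚ S := T.restrict fun u _ => hTm u
  have hTS : TS ∈ DD hinv := by
    rw [mem_DD]
    intro γ s
    apply Subtype.ext
    exact avg_tr K₂ γ (s : X → ℚ)
  have hstab : ∀ δ ∈ DD hinv, ∀ v ∈ K₁.comap S.subtype, δ v ∈ K₁.comap S.subtype := by
    intro δ hδ v hv
    rw [mem_DD] at hδ
    refine hD (S.subtype ∘ₗ δ) ⟨fun s => (δ s).2, ?_⟩ v hv
    intro γ s t hst x
    have h1 : t = trS hinv γ s := Subtype.ext (funext hst)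
    rw [h1]
    change ((δ (trS hinv γ s) : S) : X → ℚ) x = _
    rw [hδ]
    rfl
  have key := Pool.Agent.Y655.KN.trace_stable S (DD hinv)
    (fun δ hδ h0 => DD_inj hS δ hδ h0) (K₁.comap S.subtype) hstab TS hTS
  have hT1 : ∀ k ∈ K₁, T k ∈ K₁ := fun k hk => hstab TS hTS ⟨k, hK₁ hk⟩ hk
  let e : K₁.comap S.subtype ≃ₗ[ℚ] K₁ := Submodule.comapSubtypeEquivOfLe hK₁
  have h1 : LinearMap.trace ℚ (K₁.comap S.subtype) (TS.restrict (hstab TS hTS)) =
      LinearMap.trace ℚ (X → ℚ) (proj K₁ ∘ₗ T) := by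
    have h5 := LinearMap.trace_conj' (R := ℚ) (M := K₁.comap S.subtype) (N := K₁)
      (TS.restrict (hstab TS hTS)) e
    rw [trace_proj_comp K₁ T hT1, ← h5]
    congr 1
  have h2 : LinearMap.trace ℚ S TS = LinearMap.trace ℚ (X → ℚ) T := by
    rw [← trace_proj_comp S T (fun u _ => hTm u)]
    congr 1
    exact LinearMap.ext fun u => proj_of_mem S (hTm u)
  have h3 : LinearMap.trace ℚ (X → ℚ) T = Nat.card G * finrank ℚ K₂ := by
    change LinearMap.trace ℚ (X → ℚ) (∑ γ : G, tr γ ∘ₗ proj K₂ ∘ₗ tr γ⁻¹) = _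
    rw [map_sum]
    have h4 : ∀ γ : G, LinearMap.trace ℚ (X → ℚ) (tr γ ∘ₗ proj K₂ ∘ₗ tr γ⁻¹) =
        (finrank ℚ K₂ : ℚ) := by
      intro γ
      rw [LinearMap.trace_comp_comm', LinearMap.comp_assoc, ← trace_proj K₂]
      congr 1
      refine LinearMap.ext fun u => ?_
      rw [LinearMap.comp_apply, LinearMap.comp_apply, tr_inv_tr]
    rw [sum_congr rfl fun γ _ => h4 γ, sum_const, card_univ, nsmul_eq_mul, Nat.card_eq_fintype_card]
  rw [h1, h2, h3, LinearEquiv.finrank_eq e] at key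
  exact key

end Pool.Agent.Y275.KN
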