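import Pool.Agent.Y1.KN.Stm

/-!
# Project KN (helper1), task FIELD: subgroups above the stabilizer of an embedding and subfields
-/

set_option autoImplicit false
set_option linter.unusedSectionVars false
set_option linter.unusedVariables false

namespace Pool.Agent.Y275.KN

open NumberField Module IntermediateField Pool.Agent.H204R3.CM Pool.Agent.TH170.MF
  Pool.Agent.H977R3.CM

section

variable (E : Type) [Field E] [NumberField E]

/-- the normal closure in the complex numbers -/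
noncomputable abbrev NN : IntermediateField ℚ ℂ := IntermediateField.normalClosure ℚ E ℂ

theorem nn_closure : IsNormalClosure ℚ E (NN E) :=
  Algebra.IsAlgebraic.isNormalClosure_normalClosure (fun x => IsAlgClosed.splits _)

instance nn_fin : FiniteDimensional ℚ (NN E) := inferInstance

instance nn_normal : Normal ℚ (NN E) := by
  have _ := nn_closure E
  exact IsNormalClosure.normal (K := E)

instance nn_nf : NumberField (NN E) := NumberField.mk

instance nn_gal : IsGalois ℚ (NN E) := ⟨⟩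

theorem nn_mem (ψ : E →+* ℂ) (x : E) : ψ x ∈ NN E :=
  AlgHom.fieldRange_le_normalClosure (RingHom.equivRatAlgHom E ℂ ψ) ⟨x, rfl⟩

theorem exists_T : ∃ T : (NN E ≃ₐ[ℚ] NN E) → Gal E, ∀ g (ψ : E →+* ℂ) (x : E),
    (T g • ψ) x = (g ⟨ψ x, nn_mem E ψ x⟩ : ℂ) := by
  have h1 : ∀ g : NN E ≃ₐ[ℚ] NN E, ∃ γ : Gal E, ∀ (ψ : E →+* ℂ) (x : E),
      (γ • ψ) x = (g ⟨ψ x, nn_mem E ψ x⟩ : ℂ) := by
    intro g
    obtain ⟨σ, hσ⟩ := exists_aut (algebraMap (NN E) ℂ) (g : NN E ≃+* NN E)
    obtain ⟨γ, hγ⟩ := exists_gal_smul E σ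
    refine ⟨γ, fun ψ x => ?_⟩
    rw [hγ]
    exact hσ ⟨ψ x, nn_mem E ψ x⟩
  choose T hT using h1
  exact ⟨T, hT⟩

theorem gal_ext {γ γ' : Gal E} (h : ∀ (ψ : E →+* ℂ) (x : E), (γ • ψ) x = (γ' • ψ) x) : γ = γ' := by
  apply Subtype.ext
  apply Equiv.ext
  intro ψ
  exact RingHom.ext (h ψ)

/-- the two groups are isomorphic -/
theorem exists_iso : ∃ T : (NN E ≃ₐ[ℚ] NN E) ≃* Gal E, ∀ g (ψ : E →+* ℂ) (x : E),
    (T g • ψ) x = (g ⟨ψ x, nn_mem E ψ x⟩ : ℂ) := by
  obtain ⟨T, hT⟩ := exists_T E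
  have hmul : ∀ g h, T (g * h) = T g * T h := by
    intro g h
    apply gal_ext
    intro ψ x
    rw [hT, mul_smul, hT]
    have h1 : (⟨(T h • ψ) x, nn_mem E (T h • ψ) x⟩ : NN E) = h ⟨ψ x, nn_mem E ψ x⟩ :=
      Subtype.ext (hT h ψ x)
    rw [h1]
    rfl
  have hinj : Function.Injective T := by
    intro g g' hgg
    have h1 : ∀ (ψ : E →+* ℂ) (x : E), g ⟨ψ x, nn_mem E ψ x⟩ = g' ⟨ψ x, nn_mem E ψ x⟩ := by
      intro ψ x
      apply Subtype.ext
      rw [← hT, ← hT, hgg]
    -- the field of the elements where `g` and `g'` agree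
    let S : IntermediateField ℚ (NN E) :=
      { AlgHom.equalizer (g : NN E →ₐ[ℚ] NN E) (g' : NN E →ₐ[ℚ] NN E) with
        inv_mem' := fun z hz => by
          change g z⁻¹ = g' z⁻¹
          rw [map_inv₀, map_inv₀]
          exact congrArg _ hz }
    have hS : NN E ≤ S.map (NN E).val := by
      refine iSup_le fun f => ?_
      rintro _ ⟨x, rfl⟩
      exact ⟨⟨f x, nn_mem E (f : E →+* ℂ) x⟩, h1 (f : E →+* ℂ) x, rfl⟩
    ext z
    obtain ⟨z', hz', hzz⟩ := hS z.2
    have h2 : z' = z := Subtype.ext hzz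
    rw [← h2]
    exact congrArg _ hz'
  have hsurj : Function.Surjective T := by
    intro γ
    obtain ⟨σ, hσ⟩ := gal_smul E γ
    obtain ⟨g, hg⟩ := exists_gal (algebraMap (NN E) ℂ) σ
    refine ⟨g, gal_ext E fun ψ x => ?_⟩
    rw [hT, hσ]
    exact (hg ⟨ψ x, nn_mem E ψ x⟩).symm
  exact ⟨MulEquiv.ofBijective (MonoidHom.mk' T hmul) ⟨hinj, hsurj⟩, hT⟩

end

/-- Task: the degree of the normal closure. -/
theorem closure_degree : Pool.Agent.Y1.KN.P_closure := by
  intro E _ _ _ φ₀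
  constructor
  · obtain ⟨T, -⟩ := exists_iso E
    rw [← Nat.card_congr T.toEquiv]
    exact IsGalois.card_aut_eq_finrank ℚ (NN E)
  · rw [← Subgroup.card_mul_index (MulAction.stabilizer (Gal E) φ₀),
      MulAction.index_stabilizer_of_transitive, Nat.card_eq_fintype_card (α := E →+* ℂ),
      Embeddings.card]

/-- Task: subgroups above the stabilizer of an embedding. -/
theorem field_index : Pool.Agent.Y1.KN.P_field := by
  intro E _ _ _ φ₀ c B hc hF H' hle hne hcH
  obtain ⟨T, hT⟩ := exists_iso E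
  obtain ⟨H, hH⟩ : ∃ H : Subgroup (NN E ≃ₐ[ℚ] NN E), H = H'.comap T.toMonoidHom := ⟨_, rfl⟩
  have hmem : ∀ g, g ∈ H ↔ T g ∈ H' := fun g => by rw [hH]; rfl
  have hidx : H.index = H'.index := by
    rw [hH]
    exact Subgroup.index_comap_of_surjective H' T.surjective
  -- the embedding in the normal closure
  let φr : E →+* NN E := φ₀.codRestrict (NN E).toSubfield.toSubring (nn_mem E φ₀)
  let φ : E →ₐ[ℚ] NN E := RingHom.equivRatAlgHom E (NN E) φr
  have hφ : ∀ x, φ x = ⟨φ₀ x, nn_mem E φ₀ x⟩ := fun x => rfl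
  have hfix : φ.fieldRange.fixingSubgroup ≤ H := by
    intro g hg
    rw [hmem]
    apply hle
    rw [MulAction.mem_stabilizer_iff]
    ext x
    rw [hT, ← hφ, (IntermediateField.mem_fixingSubgroup_iff _ g).1 hg (φ x) ⟨x, rfl⟩]
    rfl
  have hrange : fixedField H ≤ φ.fieldRange := by
    intro y hy
    rw [← IsGalois.fixedField_fixingSubgroup φ.fieldRange]
    rw [mem_fixedField_iff] at hy ⊢
    exact fun g hg => hy g (hfix hg)
  obtain ⟨F, hFd⟩ : ∃ F : IntermediateField ℚ E, F = (fixedField H).comap φ := ⟨_, rfl⟩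
  have hFm : ∀ x, x ∈ F ↔ φ x ∈ fixedField H := fun x => by rw [hFd]; rfl
  have hmap : F.map φ = fixedField H := by
    ext y
    constructor
    · rintro ⟨x, hx, rfl⟩
      exact (hFm x).1 hx
    · intro hy
      obtain ⟨x, rfl⟩ := hrange hy
      exact ⟨x, (hFm x).2 hy, rfl⟩
  have hfr : finrank ℚ F = H'.index := by
    rw [LinearEquiv.finrank_eq (equivMap F φ).toLinearEquiv, hmap,
      finrank_eq_fixingSubgroup_index, fixingSubgroup_fixedField, hidx]
  rw [← hfr]
  refine hF F ?_ ?_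
  · intro htop
    apply hne
    refine le_antisymm ?_ hle
    intro γ hγ
    obtain ⟨g, rfl⟩ := T.surjective γ
    rw [MulAction.mem_stabilizer_iff]
    ext x
    have h1 : φ x ∈ fixedField H := (hFm x).1 (by rw [htop]; trivial)
    rw [mem_fixedField_iff] at h1
    rw [hT, ← hφ, h1 g ((hmem g).2 hγ)]
    rfl
  · refine ⟨φ₀.comp (algebraMap F E), fun hreal => ?_⟩
    apply hcH
    obtain ⟨g, rfl⟩ := T.surjective c
    rw [← hmem]
    have h1 : g ∈ (fixedField H).fixingSubgroup := by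
      rw [IntermediateField.mem_fixingSubgroup_iff]
      intro y hy
      obtain ⟨x, rfl⟩ := hrange hy
      have h2 : x ∈ F := (hFm x).2 hy
      have h3 := RingHom.congr_fun hreal ⟨x, h2⟩
      rw [ComplexEmbedding.conjugate_coe_eq] at h3
      have h4 := RingHom.congr_fun (hc φ₀) x
      rw [hT, ComplexEmbedding.conjugate_coe_eq] at h4
      apply Subtype.ext
      exact h4.trans h3
    rwa [fixingSubgroup_fixedField] at h1

end Pool.Agent.Y275.KN
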